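import Pool.Agent.LE.StmtsZ
import Pool.Agent.Helper28_LEW.SGE
import Pool.Agent.Helper42_LE.Tol

/-! CDE: lower bound for the Green function of a cube above the edge. -/

set_option autoImplicit false
set_option linter.unusedSectionVars false

open scoped Topology ENNReal NNReal
open MeasureTheory Filter ProbabilityTheory

noncomputable section

namespace Pool.Agent.LE.H60Z

open Matrix Pool.Agent.Anderson Pool.Agent.Loc Pool.Agent.Mob Pool.Agent.Helper54.Bal Pool.Agent.BED
  Pool.Agent.LE

namespace Cde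

variable {d M : ℕ}

/-- the class of a site in the torus -/
def cst (d M : ℕ) (y : Site d) : Tor d M := fun i => ((y i : ℤ) : ZMod M)

theorem cst_add (y : Site d) (i : Fin d) : cst d M (y + Pi.single i 1) = cst d M y + ev i := by
  funext j
  unfold cst ev
  rw [Pi.add_apply, Pi.add_apply]
  by_cases h : j = i
  · subst h
    simp
  · rw [Pi.single_eq_of_ne h, Pi.single_eq_of_ne h]
    simp

theorem cst_sub (y : Site d) (i : Fin d) : cst d M (y - Pi.single i 1) = cst d M y - ev i := by
  funext j
  unfold cst ev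
  rw [Pi.sub_apply, Pi.sub_apply]
  by_cases h : j = i
  · subst h
    simp
  · rw [Pi.single_eq_of_ne h, Pi.single_eq_of_ne h]
    simp

theorem rm_diag (W : Site d → ℝ) (Λ : Finset (Site d)) (E : ℝ) :
    RM W Λ E = Matrix.diagonal (fun x : Λ => E - W x) - Matrix.of (fun x y : Λ => hop (x : Site d) (y : Site d)) := by
  ext x y
  rw [RM_apply, Matrix.sub_apply, Matrix.of_apply, rm]
  by_cases h : x = y
  · subst h
    simp
  · have h' : (x : Site d) ≠ y := fun h' => h (Subtype.ext h')
    rw [Matrix.diagonal_apply_ne _ h, if_neg h']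

theorem posDef_of_form {W : Site d → ℝ} {Λ : Finset (Site d)} {E g : ℝ} (hg : 0 < g)
    (h : ∀ u : Site d → ℝ, g * ∑ y ∈ Λ, u y ^ 2 ≤ qform W Λ E u) : (RM W Λ E).PosDef := by
  classical
  refine posDef_of_real (fun x y => ?_) fun f hf => ?_
  · have h1 := congrFun (congrFun (RM_symm W Λ E) y) x
    rw [Matrix.transpose_apply] at h1
    exact h1
  · set u : Site d → ℝ := fun z => if hz : z ∈ Λ then f ⟨z, hz⟩ else 0 with hu
    have huv : (fun z : Λ => u z) = f := by
      funext z
      simp [hu]
    have h1 := h u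
    rw [qform_eq_dot, huv] at h1
    have h2 : 0 < ∑ y ∈ Λ, u y ^ 2 := by
      obtain ⟨x, hx⟩ := Function.ne_iff.1 hf
      refine Finset.sum_pos' (fun y _ => sq_nonneg _) ⟨x, x.2, ?_⟩
      have h3 : u x = f x := congrFun huv x
      rw [h3]
      have : f x ≠ 0 := hx
      positivity
    have h4 := mul_pos hg h2
    exact h4.trans_le h1

/-- the facts about the Green function used below -/
theorem green {W : Site d → ℝ} {m : ℕ} {E g : ℝ} (hg : 0 < g)
    (h : ∀ u : Site d → ℝ, g * ∑ y ∈ box (0 : Site d) m, u y ^ 2 ≤ qform W (box 0 m) E u) :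
    (∀ x, 0 ≤ gr W (box 0 m) E 0 x) ∧
    (∀ x ∈ box (0 : Site d) m, (E - W x) * gr W (box 0 m) E 0 x - ∑ i : Fin d,
      (gr W (box 0 m) E 0 (x + Pi.single i 1) + gr W (box 0 m) E 0 (x - Pi.single i 1)) =
        if x = 0 then 1 else 0) := by
  classical
  set Λ := box (0 : Site d) m with hΛ
  have h0Λ : (0 : Site d) ∈ Λ := by
    rw [hΛ, mem_box, sd_self]
    exact Nat.zero_le _
  have hdet : (RM W Λ E).det ≠ 0 := H28W.det_of_form hg h
  have hout : ∀ y, y ∉ Λ → gr W Λ E 0 y = 0 := by
    intro y hy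
    unfold gr
    rw [dif_neg fun hh => hy hh.2]
  have heq : ∀ x ∈ Λ, (E - W x) * gr W Λ E 0 x - ∑ i : Fin d,
      (gr W Λ E 0 (x + Pi.single i 1) + gr W Λ E 0 (x - Pi.single i 1)) =
        if x = 0 then 1 else 0 := by
    intro x hx
    have h1 := rm_mul_gr hdet hx h0Λ
    rw [H73.sum_nb Λ (fun y => gr W Λ E 0 y) hout x, ← h1]
    have h2 : ∀ y ∈ Λ, rm W E x y * gr W Λ E y 0 =
        (if x = y then (E - W x) * gr W Λ E 0 y else 0) - hop x y * gr W Λ E 0 y := by
      intro y _
      rw [gr_symm W Λ E y 0, rm, sub_mul]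
      congr 1
      split_ifs <;> ring
    rw [Finset.sum_congr rfl h2, Finset.sum_sub_distrib, Finset.sum_ite_eq, if_pos hx]
  refine ⟨?_, heq⟩
  intro x
  by_cases hx : x ∈ Λ
  · have hP := posDef_of_form hg h
    rw [rm_diag] at hP
    have h3 := nonneg_of_mulVec (W := Matrix.of (fun x y : Λ => hop (x : Site d) (y : Site d)))
      (fun x y => hop_nonneg _ _) (v := fun x : Λ => gr W Λ E 0 x) hP ?_
    · exact h3 ⟨x, hx⟩
    · intro y
      rw [diag_sub_mulVec]
      have h4 := heq y y.2
      rw [H73.sum_nb Λ (fun y => gr W Λ E 0 y) hout y, ← Finset.sum_coe_sort Λ] at h4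
      simp only [Matrix.of_apply]
      rw [h4]
      split_ifs <;> norm_num
  · rw [hout x hx]

theorem green_pos {W : Site d → ℝ} {m : ℕ} {E g : ℝ} (hg : 0 < g)
    (h : ∀ u : Site d → ℝ, g * ∑ y ∈ box (0 : Site d) m, u y ^ 2 ≤ qform W (box 0 m) E u) :
    ∀ x ∈ box (0 : Site d) m, 0 < gr W (box 0 m) E 0 x := by
  obtain ⟨hnn, heq⟩ := green hg h
  have key : ∀ N : ℕ, ∀ x ∈ box (0 : Site d) m, ∑ i, (x i).natAbs = N →
      0 < gr W (box 0 m) E 0 x := by
    intro N
    induction N with
    | zero =>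
      intro x hx hN
      have hx0 : x = 0 := by
        funext i
        have h1 := (Finset.sum_eq_zero_iff.1 hN) i (Finset.mem_univ i)
        exact Int.natAbs_eq_zero.1 h1
      subst hx0
      refine lt_of_le_of_ne (hnn 0) fun hz => ?_
      have h1 := heq 0 hx
      rw [← hz, if_pos rfl] at h1
      have h2 : 0 ≤ ∑ i : Fin d, (gr W (box 0 m) E 0 ((0 : Site d) + Pi.single i 1) +
          gr W (box 0 m) E 0 ((0 : Site d) - Pi.single i 1)) :=
        Finset.sum_nonneg fun i _ => add_nonneg (hnn _) (hnn _)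
      linarith
    | succ N ih =>
      intro x hx hN
      have hex : ∃ i, x i ≠ 0 := by
        by_contra hcon
        push Not at hcon
        have : ∑ i, (x i).natAbs = 0 := Finset.sum_eq_zero fun i _ => by rw [hcon i]; rfl
        omega
      obtain ⟨i, hi⟩ := hex
      refine lt_of_le_of_ne (hnn x) fun hz => ?_
      have h1 := heq x hx
      rw [← hz, mul_zero] at h1
      have h3 : ∀ i : Fin d, 0 ≤ gr W (box 0 m) E 0 (x + Pi.single i 1) +
          gr W (box 0 m) E 0 (x - Pi.single i 1) := fun i => add_nonneg (hnn _) (hnn _)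
      have h4 : 0 < gr W (box 0 m) E 0 (x + Pi.single i 1) +
          gr W (box 0 m) E 0 (x - Pi.single i 1) := by
        have hxb : ∀ j, |x j| ≤ m := by
          intro j
          have h5 := sd_le_iff.1 (mem_box.1 hx) j
          rw [Pi.zero_apply, zero_sub, abs_neg] at h5
          exact h5
        rcases lt_or_gt_of_ne hi with hneg | hpos
        · have h5 : 0 < gr W (box 0 m) E 0 (x + Pi.single i 1) := by
            apply ih
            · rw [mem_box, sd_le_iff]
              intro j
              rw [Pi.zero_apply, zero_sub, abs_neg, Pi.add_apply]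
              by_cases hj : j = i
              · subst hj
                rw [Pi.single_eq_same]
                have h6 := hxb j
                rw [abs_le] at h6 ⊢
                omega
              · rw [Pi.single_eq_of_ne hj, add_zero]
                exact hxb j
            · have h6 : ∑ j, ((x + Pi.single i 1 : Site d) j).natAbs + 1 = ∑ j, (x j).natAbs := by
                rw [← Finset.add_sum_erase _ _ (Finset.mem_univ i),
                  ← Finset.add_sum_erase _ _ (Finset.mem_univ i)]
                have h7 : ∑ j ∈ Finset.univ.erase i, ((x + Pi.single i 1 : Site d) j).natAbs =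
                    ∑ j ∈ Finset.univ.erase i, (x j).natAbs := by
                  refine Finset.sum_congr rfl fun j hj => ?_
                  rw [Pi.add_apply, Pi.single_eq_of_ne (Finset.ne_of_mem_erase hj), add_zero]
                rw [h7, Pi.add_apply, Pi.single_eq_same]
                omega
              omega
          exact add_pos_of_pos_of_nonneg h5 (hnn _)
        · have h5 : 0 < gr W (box 0 m) E 0 (x - Pi.single i 1) := by
            apply ih
            · rw [mem_box, sd_le_iff]
              intro j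
              rw [Pi.zero_apply, zero_sub, abs_neg, Pi.sub_apply]
              by_cases hj : j = i
              · subst hj
                rw [Pi.single_eq_same]
                have h6 := hxb j
                rw [abs_le] at h6 ⊢
                omega
              · rw [Pi.single_eq_of_ne hj, sub_zero]
                exact hxb j
            · have h6 : ∑ j, ((x - Pi.single i 1 : Site d) j).natAbs + 1 = ∑ j, (x j).natAbs := by
                rw [← Finset.add_sum_erase _ _ (Finset.mem_univ i),
                  ← Finset.add_sum_erase _ _ (Finset.mem_univ i)]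
                have h7 : ∑ j ∈ Finset.univ.erase i, ((x - Pi.single i 1 : Site d) j).natAbs =
                    ∑ j ∈ Finset.univ.erase i, (x j).natAbs := by
                  refine Finset.sum_congr rfl fun j hj => ?_
                  rw [Pi.sub_apply, Pi.single_eq_of_ne (Finset.ne_of_mem_erase hj), sub_zero]
                rw [h7, Pi.sub_apply, Pi.single_eq_same]
                omega
              omega
          exact add_pos_of_nonneg_of_pos (hnn _) h5
      have h5 : 0 < ∑ i : Fin d, (gr W (box 0 m) E 0 (x + Pi.single i 1) +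
          gr W (box 0 m) E 0 (x - Pi.single i 1)) :=
        Finset.sum_pos' (fun i _ => h3 i) ⟨i, Finset.mem_univ i, h4⟩
      have h6 : (0 : ℝ) ≤ if x = 0 then 1 else 0 := by split_ifs <;> norm_num
      linarith
  exact fun x hx => key _ x hx rfl

/-- the landscape function seen on the lattice -/
theorem landscape [NeZero M] {ε z μ : ℝ} {W : Site d → ℝ} (hμ : 0 < μ)
    (hF : FlatE ε z μ (fun x : Tor d M => W (rep x))) :
    ∃ ω : Site d → ℝ, (∀ y, |ω y - 1| ≤ ε) ∧ ∀ y : Site d, (∀ i, 2 * |y i| < M) →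
      (z - W y) * ω y - ∑ i : Fin d, (ω (y + Pi.single i 1) + ω (y - Pi.single i 1)) = 1 / μ := by
  refine ⟨fun y => DD z (fun x : Tor d M => W (rep x)) (cst d M y) / μ, fun y => ?_, fun y hy => ?_⟩
  · have h1 := hF.2.2 (cst d M y)
    have h2 : DD z (fun x : Tor d M => W (rep x)) (cst d M y) / μ - 1 =
        (DD z (fun x : Tor d M => W (rep x)) (cst d M y) - μ) / μ := by
      field_simp
    simp only
    rw [h2, abs_div, abs_of_pos hμ, div_le_iff₀ hμ]
    exact h1
  · have h1 := congrFun (AM_DD hF.2.1) (cst d M y)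
    rw [AM_mulVec] at h1
    simp only [cst_add, cst_sub]
    have h2 : rep (cst d M y) = y := H73.rep_coe y hy
    rw [h2] at h1
    have h3 : ∑ i : Fin d, (DD z (fun x : Tor d M => W (rep x)) (cst d M y + ev i) / μ +
        DD z (fun x : Tor d M => W (rep x)) (cst d M y - ev i) / μ) =
        (∑ i : Fin d, (DD z (fun x : Tor d M => W (rep x)) (cst d M y + ev i) +
          DD z (fun x : Tor d M => W (rep x)) (cst d M y - ev i))) / μ := by
      rw [Finset.sum_div]
      refine Finset.sum_congr rfl fun i _ => ?_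
      rw [add_div]
    rw [h3, ← mul_div_assoc, ← sub_div, h1]
    rfl

/-- the case `b = 0` -/
theorem core (lcs : LcsStmt) : ∀ d : ℕ, 1 ≤ d → ∃ C₁ : ℝ, 1 ≤ C₁ ∧ ∀ ε : ℝ, 0 < ε → ε ≤ 1 / 50 →
    ∃ C₂ : ℝ, 1 ≤ C₂ ∧
    ∀ (M : ℕ) [NeZero M] (z μ lam : ℝ) (W : Site d → ℝ) (n R : ℕ) (i : Fin d),
    z ≤ 2 * d + 1 → 0 < lam → lam ≤ 1 / 2 → 0 < μ → 1 ≤ ε * lam * μ → 2 * (n + R) + 5 ≤ M →
    FlatE ε z μ (fun x : Tor d M => W (rep x)) → C₂ / Real.sqrt lam ≤ R →
      Real.exp (-((1 + C₁ * ε) * Real.sqrt lam * n + C₂ * (1 + Real.log (1 / lam)))) ≤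
        gr W (box 0 (n + R)) (z + lam) 0 (Pi.single i (n : ℤ)) := by
  intro d hd
  obtain ⟨C₁, hC₁, H⟩ := lcs d hd
  refine ⟨5 * C₁, by linarith, fun ε hε hε2 => ?_⟩
  obtain ⟨C₂, hC₂, H⟩ := H ε hε (by linarith)
  have hd0 : (1 : ℝ) ≤ d := by exact_mod_cast hd
  have hlogd : 0 ≤ Real.log (4 * d + 6) := Real.log_nonneg (by linarith)
  refine ⟨C₂ + 1 + Real.log (4 * d + 6), by linarith, ?_⟩
  intro M _ z μ lam W n R i hz hlam hlam2 hμ hμ2 hM hF hR
  classical
  have hsl : 0 < Real.sqrt lam := Real.sqrt_pos.2 hlam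
  have hsl2 : Real.sqrt lam ^ 2 = lam := Real.sq_sqrt hlam.le
  have hsl1 : Real.sqrt lam ≤ 1 := by
    rw [Real.sqrt_le_one]
    linarith
  -- R ≥ 1
  rw [div_le_iff₀ hsl] at hR
  have hR1 : 1 ≤ R := by
    rcases Nat.eq_zero_or_pos R with h | h
    · rw [h] at hR
      norm_num at hR
      linarith
    · exact h
  have hMz : (2 * ((n : ℤ) + R) + 5) ≤ M := by exact_mod_cast hM
  have hbox : ∀ y ∈ box (0 : Site d) (n + R), ∀ i, 2 * (|y i| + 1) < (M : ℤ) := by
    intro y hy j
    have h1 := sd_le_iff.1 (mem_box.1 hy) j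
    rw [Pi.zero_apply, zero_sub, abs_neg] at h1
    push_cast at h1
    linarith
  have hFlat : Flat z μ (fun x : Tor d M => W (rep x)) := by
    refine ⟨hF.1, hF.2.1, fun x => (hF.2.2 x).trans ?_⟩
    have : ε * μ ≤ 1 / 50 * μ := mul_le_mul_of_nonneg_right hε2 hμ.le
    linarith
  have hform : ∀ u : Site d → ℝ, lam * ∑ y ∈ box (0 : Site d) (n + R), u y ^ 2 ≤
      qform W (box 0 (n + R)) (z + lam) u := by
    intro u
    have h1 := H28W.qform_flat (box 0 (n + R)) hbox hFlat u
    rw [qform_eq] at h1 ⊢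
    rw [add_mul]
    linarith
  obtain ⟨hnn, heq⟩ := green hlam hform
  have hpos := green_pos hlam hform
  obtain ⟨ω, hω, hωeq⟩ := landscape (M := M) hμ hF
  have hω0 : ∀ y, 0 < ω y := by
    intro y
    have h1 := (abs_le.1 (hω y)).1
    linarith
  have hω1 : ∀ y, ω y ≤ 1 + ε := by
    intro y
    have h1 := (abs_le.1 (hω y)).2
    linarith
  set u : Site d → ℝ := fun y => gr W (box 0 (n + R)) (z + lam) 0 y with hu
  set h : Site d → ℝ := fun y => Real.log (u y / ω y) with hh
  set k : ℝ := (1 + 4 * ε) * lam with hk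
  have hk0 : 0 < k := by positivity
  have hk1 : k ≤ 1 := by
    rw [hk]
    nlinarith
  have hklam : lam ≤ k := by
    rw [hk]
    nlinarith
  have hsk : Real.sqrt lam ≤ Real.sqrt k := Real.sqrt_le_sqrt hklam
  have hμi : 1 / μ ≤ ε * lam := by
    rw [div_le_iff₀ hμ]
    exact hμ2
  have hLS : LS ω h ε k 0 (n + (R - 1)) := by
    refine ⟨fun x _ => hω x, fun x hx => ?_⟩
    have hxb : ∀ j, |x j| ≤ (n : ℤ) + R - 1 := by
      intro j
      have h5 := sd_le_iff.1 (mem_box.1 hx) j
      rw [Pi.zero_apply, zero_sub, abs_neg] at h5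
      have h6 : ((n + (R - 1) : ℕ) : ℤ) = (n : ℤ) + R - 1 := by
        rw [Nat.cast_add, Nat.cast_sub hR1]
        push_cast
        ring
      rw [h6] at h5
      exact h5
    have hxB : x ∈ box (0 : Site d) (n + R) := by
      rw [mem_box, sd_le_iff]
      intro j
      have := hxb j
      rw [Pi.zero_apply, zero_sub, abs_neg]
      push_cast
      linarith
    have hxadd : ∀ j : Fin d, x + Pi.single j 1 ∈ box (0 : Site d) (n + R) := by
      intro j
      rw [mem_box, sd_le_iff]
      intro l
      have h7 := hxb l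
      rw [Pi.zero_apply, zero_sub, abs_neg, Pi.add_apply]
      push_cast
      by_cases hl : l = j
      · subst hl
        rw [Pi.single_eq_same]
        rw [abs_le] at h7 ⊢
        omega
      · rw [Pi.single_eq_of_ne hl, add_zero]
        linarith
    have hxsub : ∀ j : Fin d, x - Pi.single j 1 ∈ box (0 : Site d) (n + R) := by
      intro j
      rw [mem_box, sd_le_iff]
      intro l
      have h7 := hxb l
      rw [Pi.zero_apply, zero_sub, abs_neg, Pi.sub_apply]
      push_cast
      by_cases hl : l = j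
      · subst hl
        rw [Pi.single_eq_same]
        rw [abs_le] at h7 ⊢
        omega
      · rw [Pi.single_eq_of_ne hl, sub_zero]
        linarith
    have hux : 0 < u x := hpos x hxB
    have hωx := hω0 x
    have hexp : ∀ y ∈ box (0 : Site d) (n + R),
        ω y * (Real.exp (h y - h x) - 1) = ω x / u x * u y - ω y := by
      intro y hy
      have huy : 0 < u y := hpos y hy
      have hωy := hω0 y
      rw [Real.exp_sub, hh]
      simp only
      rw [Real.exp_log (div_pos huy hωy), Real.exp_log (div_pos hux hωx)]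
      field_simp
    have h1 : ∑ j : Fin d, (ω (x + Pi.single j 1) * (Real.exp (h (x + Pi.single j 1) - h x) - 1) +
        ω (x - Pi.single j 1) * (Real.exp (h (x - Pi.single j 1) - h x) - 1)) =
        ω x / u x * ∑ j : Fin d, (u (x + Pi.single j 1) + u (x - Pi.single j 1)) -
          ∑ j : Fin d, (ω (x + Pi.single j 1) + ω (x - Pi.single j 1)) := by
      rw [Finset.mul_sum, ← Finset.sum_sub_distrib]
      refine Finset.sum_congr rfl fun j _ => ?_
      rw [hexp _ (hxadd j), hexp _ (hxsub j)]
      ring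
    rw [h1]
    have h2 := heq x hxB
    have h3 := hωeq x (fun j => by
      have := hbox x hxB j
      linarith)
    have h4 : ∑ j : Fin d, (u (x + Pi.single j 1) + u (x - Pi.single j 1)) ≤
        (z + lam - W x) * u x := by
      have h6 : (0 : ℝ) ≤ if x = 0 then 1 else 0 := by split_ifs <;> norm_num
      rw [← h2] at h6
      linarith
    have h5 : ω x / u x * ∑ j : Fin d, (u (x + Pi.single j 1) + u (x - Pi.single j 1)) ≤
        (z + lam - W x) * ω x := by
      calc ω x / u x * ∑ j : Fin d, (u (x + Pi.single j 1) + u (x - Pi.single j 1))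
          ≤ ω x / u x * ((z + lam - W x) * u x) :=
            mul_le_mul_of_nonneg_left h4 (div_pos hωx hux).le
        _ = _ := by field_simp
    have h6 : ω x / u x * ∑ j : Fin d, (u (x + Pi.single j 1) + u (x - Pi.single j 1)) -
          ∑ j : Fin d, (ω (x + Pi.single j 1) + ω (x - Pi.single j 1)) ≤
        lam * ω x + 1 / μ := by
      have e : (z + lam - W x) * ω x = (z - W x) * ω x + lam * ω x := by ring
      rw [e] at h5
      linarith
    have h7 : lam * ω x + 1 / μ ≤ lam * (1 + ε) + ε * lam :=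
      add_le_add (mul_le_mul_of_nonneg_left (hω1 x) hlam.le) hμi
    calc ω x * (ω x / u x * ∑ j : Fin d, (u (x + Pi.single j 1) + u (x - Pi.single j 1)) -
          ∑ j : Fin d, (ω (x + Pi.single j 1) + ω (x - Pi.single j 1)))
        ≤ ω x * (lam * (1 + ε) + ε * lam) := mul_le_mul_of_nonneg_left (h6.trans h7) hωx.le
      _ ≤ (1 + ε) * (lam * (1 + ε) + ε * lam) :=
          mul_le_mul_of_nonneg_right (hω1 x) (by positivity)
      _ = lam * (1 + 3 * ε + 2 * ε ^ 2) := by ring
      _ ≤ lam * (1 + 4 * ε) := by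
          apply mul_le_mul_of_nonneg_left _ hlam.le
          nlinarith
      _ = k := by rw [hk]; ring
  have hRk : C₂ / Real.sqrt k ≤ ((R - 1 : ℕ) : ℝ) := by
    rw [Nat.cast_sub hR1, Nat.cast_one]
    have h1 : C₂ / Real.sqrt k ≤ C₂ / Real.sqrt lam :=
      div_le_div_of_nonneg_left (by linarith) hsl hsk
    refine h1.trans ?_
    rw [div_le_iff₀ hsl]
    have h2 : (R - 1 : ℝ) * Real.sqrt lam = R * Real.sqrt lam - Real.sqrt lam := by ring
    rw [h2]
    linarith
  have hmain := H ω h k 0 n (R - 1) i hk0 hk1 hRk hLS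
  rw [zero_add] at hmain
  -- the endpoint
  set y : Site d := Pi.single i (n : ℤ) with hy
  have hyB : y ∈ box (0 : Site d) (n + R) := by
    rw [mem_box, sd_le_iff]
    intro j
    rw [Pi.zero_apply, zero_sub, abs_neg, hy]
    push_cast
    by_cases hj : j = i
    · subst hj
      rw [Pi.single_eq_same, abs_of_nonneg (by positivity)]
      linarith [Int.natCast_nonneg R]
    · rw [Pi.single_eq_of_ne hj, abs_zero]
      positivity
  have h0B : (0 : Site d) ∈ box (0 : Site d) (n + R) := by
    rw [mem_box, sd_self]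
    exact Nat.zero_le _
  have huy : 0 < u y := hpos y hyB
  have hu0 : 0 < u 0 := hpos 0 h0B
  have hW0 : -1 ≤ W 0 := by
    have h1 := hF.1 (cst d M 0)
    have h2 : rep (cst d M (0 : Site d)) = 0 := H73.rep_coe (0 : Site d) (fun j => by
      rw [Pi.zero_apply, abs_zero, mul_zero]
      have : (0 : ℤ) ≤ n := Int.natCast_nonneg n
      have : (0 : ℤ) ≤ R := Int.natCast_nonneg R
      linarith)
    change -1 ≤ W (rep (cst d M 0)) at h1
    rw [h2] at h1
    exact h1
  have hu0' : 1 / (2 * d + 3) ≤ u 0 := by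
    have h1 := heq 0 h0B
    rw [if_pos rfl] at h1
    have h2 : 0 ≤ ∑ j : Fin d, (gr W (box 0 (n + R)) (z + lam) 0 ((0 : Site d) + Pi.single j 1) +
        gr W (box 0 (n + R)) (z + lam) 0 ((0 : Site d) - Pi.single j 1)) :=
      Finset.sum_nonneg fun j _ => add_nonneg (hnn _) (hnn _)
    have h3 : 1 ≤ (z + lam - W 0) * u 0 := by
      rw [hu]
      simp only
      linarith
    have h4 : (z + lam - W 0) * u 0 ≤ (2 * d + 3) * u 0 :=
      mul_le_mul_of_nonneg_right (by linarith) hu0.le
    rw [div_le_iff₀ (by positivity)]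
    linarith
  have hhy : u y = ω y * Real.exp (h y) := by
    rw [hh]
    simp only
    rw [Real.exp_log (div_pos huy (hω0 y))]
    have := (hω0 y).ne'
    field_simp
  have hh0 : u 0 = ω 0 * Real.exp (h 0) := by
    rw [hh]
    simp only
    rw [Real.exp_log (div_pos hu0 (hω0 0))]
    have := (hω0 0).ne'
    field_simp
  have hskle : Real.sqrt k ≤ (1 + 2 * ε) * Real.sqrt lam := by
    apply Real.sqrt_le_iff.2
    refine ⟨by positivity, ?_⟩
    rw [mul_pow, hsl2, hk]
    apply mul_le_mul_of_nonneg_right _ hlam.le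
    nlinarith
  have hlogk : Real.log (1 / k) ≤ Real.log (1 / lam) := by
    apply Real.log_le_log (by positivity)
    exact one_div_le_one_div_of_le hlam hklam
  have hloglam : 0 ≤ Real.log (1 / lam) := by
    apply Real.log_nonneg
    rw [le_div_iff₀ hlam]
    linarith
  have hb1 : (1 + C₁ * ε) * Real.sqrt k * n ≤ (1 + 5 * C₁ * ε) * Real.sqrt lam * n := by
    apply mul_le_mul_of_nonneg_right _ (Nat.cast_nonneg n)
    calc (1 + C₁ * ε) * Real.sqrt k ≤ (1 + C₁ * ε) * ((1 + 2 * ε) * Real.sqrt lam) :=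
          mul_le_mul_of_nonneg_left hskle (by positivity)
      _ = ((1 + C₁ * ε) * (1 + 2 * ε)) * Real.sqrt lam := by ring
      _ ≤ (1 + 5 * C₁ * ε) * Real.sqrt lam := by
          apply mul_le_mul_of_nonneg_right _ hsl.le
          have h8 : 0 ≤ C₁ * ε := by positivity
          have h9 : ε ≤ C₁ * ε := by nlinarith
          have h10 : C₁ * ε * ε ≤ C₁ * ε * 1 := mul_le_mul_of_nonneg_left (by linarith) h8
          nlinarith
  have hb2 : C₂ * (1 + Real.log (1 / k)) + Real.log (4 * d + 6) ≤
      (C₂ + 1 + Real.log (4 * d + 6)) * (1 + Real.log (1 / lam)) := by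
    have h8 : C₂ * (1 + Real.log (1 / k)) ≤ C₂ * (1 + Real.log (1 / lam)) :=
      mul_le_mul_of_nonneg_left (by linarith) (by linarith)
    have h9 : 0 ≤ Real.log (4 * d + 6) * Real.log (1 / lam) := mul_nonneg hlogd hloglam
    have h10 : (C₂ + 1 + Real.log (4 * d + 6)) * (1 + Real.log (1 / lam)) =
        C₂ * (1 + Real.log (1 / lam)) + Real.log (4 * d + 6) + (1 + Real.log (1 / lam)) +
          Real.log (4 * d + 6) * Real.log (1 / lam) := by ring
    rw [h10]
    linarith
  have hhy0 : h 0 - ((1 + C₁ * ε) * Real.sqrt k * n + C₂ * (1 + Real.log (1 / k))) ≤ h y := by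
    have h8 := (abs_le.1 hmain).1
    linarith
  have hstart : Real.exp (-Real.log (4 * d + 6)) ≤ ω y * Real.exp (h 0) := by
    rw [Real.exp_neg, Real.exp_log (by positivity)]
    have h8 : 1 / (2 * d + 3) ≤ ω 0 * Real.exp (h 0) := by
      rw [← hh0]
      exact hu0'
    have h9 : ω 0 ≤ 2 * ω y := by
      have h10 := hω1 0
      have h11 := (abs_le.1 (hω y)).1
      linarith
    have h10 : ω 0 * Real.exp (h 0) ≤ 2 * ω y * Real.exp (h 0) :=
      mul_le_mul_of_nonneg_right h9 (Real.exp_pos _).le
    have h11 : ((4 : ℝ) * d + 6)⁻¹ = 1 / (2 * d + 3) / 2 := by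
      rw [div_div, one_div]
      congr 1
      ring
    rw [h11]
    linarith
  change _ ≤ u y
  rw [hhy]
  calc Real.exp (-((1 + 5 * C₁ * ε) * Real.sqrt lam * n +
        (C₂ + 1 + Real.log (4 * d + 6)) * (1 + Real.log (1 / lam))))
      ≤ Real.exp (-Real.log (4 * d + 6) +
          -((1 + C₁ * ε) * Real.sqrt k * n + C₂ * (1 + Real.log (1 / k)))) := by
        apply Real.exp_le_exp.2
        linarith
    _ = Real.exp (-Real.log (4 * d + 6)) *
          Real.exp (-((1 + C₁ * ε) * Real.sqrt k * n + C₂ * (1 + Real.log (1 / k)))) :=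
        Real.exp_add _ _
    _ ≤ ω y * Real.exp (h 0) *
          Real.exp (-((1 + C₁ * ε) * Real.sqrt k * n + C₂ * (1 + Real.log (1 / k)))) :=
        mul_le_mul_of_nonneg_right hstart (Real.exp_pos _).le
    _ = ω y * Real.exp (h 0 - ((1 + C₁ * ε) * Real.sqrt k * n + C₂ * (1 + Real.log (1 / k)))) := by
        rw [mul_assoc, ← Real.exp_add, ← sub_eq_add_neg]
    _ ≤ ω y * Real.exp (h y) :=
        mul_le_mul_of_nonneg_left (Real.exp_le_exp.2 hhy0) (hω0 y).le

end Cde

theorem cde (lcs : LcsStmt) : CdeStmt := by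
  intro d hd
  obtain ⟨C₁, hC₁, H⟩ := Cde.core lcs d hd
  refine ⟨C₁, hC₁, fun ε hε hε2 => ?_⟩
  obtain ⟨C₂, hC₂, H⟩ := H ε hε hε2
  refine ⟨C₂, hC₂, ?_⟩
  intro M _ z μ lam W b n R i hz hlam hlam2 hμ hμ2 hM hF hR
  have hF' : FlatE ε z μ (fun x : Tor d M => (fun y => W (y + b)) (rep x)) := by
    have e : (fun x : Tor d M => (fun y => W (y + b)) (rep x)) = fun x : Tor d M => W (b + rep x) := by
      funext x
      simp only
      rw [add_comm]
    rw [e]
    exact hF
  have h1 := H M z μ lam (fun y => W (y + b)) n R i hz hlam hlam2 hμ hμ2 hM hF' hR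
  have h2 : ∀ y : Site d, y ∈ box (0 : Site d) (n + R) ↔ y + b ∈ box b (n + R) := by
    intro y
    rw [mem_box, mem_box, sd_le_iff, sd_le_iff]
    refine forall_congr' fun j => ?_
    rw [Pi.add_apply, Pi.zero_apply]
    have e : b j - (y j + b j) = 0 - y j := by ring
    rw [e]
  have h3 := H42.gr_tau W b h2 (z + lam) 0 (Pi.single i (n : ℤ))
  rw [zero_add, add_comm (Pi.single i (n : ℤ)) b] at h3
  rw [← h3]
  exact h1

end Pool.Agent.LE.H60Z
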