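import Pool.Agent.LE.StmtsZ
import Pool.Agent.Helper28_LEW.SGE

/-! SGX: above the edge all the sites are good, with the sharp rate. -/

set_option autoImplicit false
set_option linter.unusedSectionVars false

open scoped Topology ENNReal NNReal
open MeasureTheory Filter ProbabilityTheory

noncomputable section

namespace Pool.Agent.LE.H60Z

open Matrix Pool.Agent.Anderson Pool.Agent.Loc Pool.Agent.Mob Pool.Agent.Helper54.Bal Pool.Agent.BED
  Pool.Agent.LE

theorem cosh_bound {κ : ℝ} (h0 : κ ^ 2 ≤ 1) : 2 * (Real.cosh κ - 1) ≤ κ ^ 2 * (1 + κ ^ 2 / 2) := by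
  have h1 := Real.cosh_le_exp_half_sq κ
  have h2 : |κ ^ 2 / 2| ≤ 1 := by
    rw [abs_of_nonneg (by positivity)]
    linarith
  have h3 := Real.abs_exp_sub_one_sub_id_le h2
  have h4 := (abs_le.1 h3).2
  nlinarith [sq_nonneg κ]

theorem sgx (cts : CtsStmt) : SgxStmt := by
  intro d M' L _ v σ z μ E δ ε p hd hσ hv hμ hz hprob hε hε2 hδ hδε hE hL hM hlog
  classical
  set f : (Site d → ℝ) → (Tor d M' → ℝ) := fun V x => V (0 + rep x) with hf
  set B : Set (Site d → ℝ) := f ⁻¹' {U | ¬ Flat z μ U} with hB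
  have pB : PP d (gl σ) B ≤ ENNReal.ofReal p := by
    have hfm : Measurable f := measurable_pi_lambda _ fun x => measurable_pi_apply _
    refine (Measure.le_map_apply hfm.aemeasurable _).trans ?_
    have h4 := H73.lawT d M' (Site d → ℝ) (PP d (gl σ)) (H54W.xi σ 0) (H54W.measurable_xi σ 0)
      (H54W.map_xi hσ 0) (H54W.indep_xi 0) σ v hv
    have h5 : (fun (V : Site d → ℝ) (x : Tor d M') => σ * H54W.xi σ 0 (rep x) V) = f := by
      funext V x
      simp only [H54W.xi, hf]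
      field_simp
    rw [h5] at h4
    rw [h4]
    exact hprob
  refine (measure_mono ?_).trans pB
  intro V hV
  by_contra hcon
  rw [hB, Set.mem_preimage, Set.mem_ofPred_eq, not_not] at hcon
  apply hV
  have hflat : Flat z μ (fun x : Tor d M' => V (rep x)) := by
    have e : f V = fun x : Tor d M' => V (rep x) := by
      funext x
      simp only [hf, zero_add]
    rw [← e]
    exact hcon
  have hsδ : 0 < Real.sqrt δ := Real.sqrt_pos.2 hδ
  have hsδ2 : Real.sqrt δ ^ 2 = δ := Real.sq_sqrt hδ.le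
  intro s hs
  rw [mem_box] at hs
  have hs' := sd_le_iff.1 hs
  have hΛ : ∀ y ∈ box s L, ∀ i, 2 * (|y i| + 1) < (M' : ℤ) := by
    intro y hy i
    rw [mem_box] at hy
    have h1 := sd_le_iff.1 hy i
    have h2 := hs' i
    have h3 : |y i| ≤ |s i - y i| + |s i| := by
      calc |y i| = |s i - (s i - y i)| := by ring_nf
        _ ≤ |s i| + |s i - y i| := abs_sub _ _
        _ = _ := by ring
    have h4 : |s i| ≤ L := by
      have : |(0 : Site d) i - s i| = |s i| := by
        rw [Pi.zero_apply, zero_sub, abs_neg]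
      rw [← this]
      exact h2
    have h5 : (8 * (L : ℤ) + 3) ≤ M' := by exact_mod_cast hM
    linarith
  have hform : ∀ u : Site d → ℝ, δ * ∑ y ∈ box s L, u y ^ 2 ≤ qform V (box s L) E u := by
    intro u
    have h1 := H28W.qform_flat (box s L) hΛ hflat u
    rw [qform_eq] at h1 ⊢
    have h2 : (z + δ) * ∑ y ∈ box s L, u y ^ 2 ≤ E * ∑ y ∈ box s L, u y ^ 2 :=
      mul_le_mul_of_nonneg_right hE (Finset.sum_nonneg fun y _ => sq_nonneg _)
    linarith
  set κ : ℝ := (1 - ε) * Real.sqrt δ with hκ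
  have hκ0 : 0 ≤ κ := mul_nonneg (by linarith) hsδ.le
  have hκ2 : κ ^ 2 = (1 - ε) ^ 2 * δ := by
    rw [hκ, mul_pow, hsδ2]
  have hκle : κ ^ 2 ≤ ε := by
    rw [hκ2]
    have h1 : (1 - ε) ^ 2 ≤ 1 := by nlinarith
    have h2 : (1 - ε) ^ 2 * δ ≤ 1 * δ := mul_le_mul_of_nonneg_right h1 hδ.le
    linarith
  have hcond : 2 * (Real.cosh κ - 1) + ε * δ ≤ δ := by
    have h1 := cosh_bound (κ := κ) (by linarith)
    have h2 : κ ^ 2 * (1 + κ ^ 2 / 2) ≤ (1 - ε) ^ 2 * δ * (1 + ε / 2) := by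
      rw [← hκ2]
      apply mul_le_mul_of_nonneg_left _ (sq_nonneg _)
      linarith
    have h3 : (1 - ε) ^ 2 * δ * (1 + ε / 2) ≤ (1 - ε) * δ := by
      have h4 : (1 - ε) ^ 2 * (1 + ε / 2) ≤ 1 - ε := by nlinarith [sq_nonneg ε]
      calc (1 - ε) ^ 2 * δ * (1 + ε / 2) = (1 - ε) ^ 2 * (1 + ε / 2) * δ := by ring
        _ ≤ _ := mul_le_mul_of_nonneg_right h4 hδ.le
    linarith
  obtain ⟨h1, h2⟩ := cts d V (box s L) E δ κ (ε * δ) hd (by positivity) hκ0 hcond hform
  refine ⟨h1, fun u hu => (h2 s u).trans ?_⟩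
  rw [hu]
  have h4 : 2 / (ε * δ) ≤ Real.exp (ε * Real.sqrt δ * L) := by
    rw [← Real.log_le_iff_le_exp (by positivity)]
    exact hlog
  have h5 : 1 / (ε * δ) ≤ 2 / (ε * δ) :=
    div_le_div_of_nonneg_right (by norm_num) (by positivity)
  calc 1 / (ε * δ) * Real.exp (-κ * L)
      ≤ Real.exp (ε * Real.sqrt δ * L) * Real.exp (-κ * L) := by
        apply mul_le_mul_of_nonneg_right (h5.trans h4) (Real.exp_pos _).le
    _ = Real.exp (-((1 - 2 * ε) * Real.sqrt δ) * L) := by
        rw [← Real.exp_add]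
        congr 1
        rw [hκ]
        ring

end Pool.Agent.LE.H60Z
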